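import Pool.Agent.Y229.MS.Stm4

/-!
# Motivic zeta functions: the ring of the rays only, after multiplication by `1 - L⁻¹ T`

The two proofs are adapted from `Pool/Agent/TH216/MF/MotE.lean` and
`Pool/Agent/TH216/MF/MotG.lean`.
-/

set_option autoImplicit false

namespace Pool.Agent.Y824.MS

section

open Pool.Agent.W426.SM (gord ford IsRay)
open Pool.Agent.W428.MOT (geoR InRat cp)
open Pool.Agent.TH216.MF

variable {R : Type} [CommRing R] (u : Rˣ) {r N : ℕ}

/-- **From classes with relations to rationality.** -/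
theorem inRat_J1 {S : Set (ℤ × ℤ)} (v : Fin r → Fin N → ℕ)
    (J : Finset (Fin N)) (l : List (Fin N → ℕ))
    (hl : ∀ a ∈ l, 0 < gord v a ∧ (-((∑ i, a i : ℕ) : ℤ), (gord v a : ℤ)) ∈ S)
    (hG : ∀ κ, IsPol (Gd v J κ * (l.map (fac v)).prod)) (w : R)
    (Ad : Finset (Fin r) → Prop) (hAd : ∀ τ τ', τ ⊆ τ' → Ad τ' → Ad τ)
    (hAd0 : ∀ τ, ¬ Ad τ → cser v J τ = 0) (b0 b1 : Finset (Fin r) → R) (h00 : b0 ∅ = 0)
    (h10 : b1 ∅ = w)
    (hb0 : ∀ i ∈ J, ∀ j0, v j0 i = 1 → ∀ τ, (∀ j ∈ τ, v j i = 0) → Ad (insert j0 τ) →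
      b0 (insert j0 τ) = w * ((u : R) - 1) ^ (J.card - frc v J (insert j0 τ) - 1) -
        ((u : R) - 1) ^ (frc v J τ - frc v J (insert j0 τ) - 1) * b0 τ)
    (hb1 : ∀ i ∈ J, ∀ j0, v j0 i = 1 → ∀ τ, (∀ j ∈ τ, v j i = 0) → Ad (insert j0 τ) →
      b1 (insert j0 τ) = w * ((u : R) - 1) ^ (J.card - frc v J (insert j0 τ) - 1) -
        ((u : R) - 1) ^ (frc v J τ - frc v J (insert j0 τ) - 1) * b1 τ) :
    FR u v J b0 b1 * (1 - PowerSeries.C ((u⁻¹ : Rˣ) : R) * PowerSeries.X) ∈ ratR u S := by
  classical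
  set Y : R := ((u⁻¹ : Rˣ) : R) with hY
  have huY : (u : R) * Y = 1 := Units.mul_inv u
  set c : Finset (Fin r) → R := fun τ => w * Y * ((u : R) - 1) ^ (J.card - frc v J τ) with hc
  -- the homogeneous relations
  have hhom : ∀ b : Finset (Fin r) → R,
      (∀ i ∈ J, ∀ j0, v j0 i = 1 → ∀ τ, (∀ j ∈ τ, v j i = 0) → Ad (insert j0 τ) →
      b (insert j0 τ) = w * ((u : R) - 1) ^ (J.card - frc v J (insert j0 τ) - 1) -
        ((u : R) - 1) ^ (frc v J τ - frc v J (insert j0 τ) - 1) * b τ) →
      ∀ τ, Ad τ → b τ - c τ = (-1) ^ (τ.card + (bas v J τ).card) *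
        ((u : R) - 1) ^ (mx v J (bas v J τ) - (frc v J τ + τ.card)) *
          (b (bas v J τ) - c (bas v J τ)) := by
    intro b hb
    refine decomp (u : R) v J Ad hAd (fun τ => b τ - c τ) ?_
    intro i hi j0 hj0 τ hτ hA
    have h1 := free_step v J i hi j0 hj0 τ hτ
    have h2 := frc_le v J τ
    simp only [hc]
    rw [hb i hi j0 hj0 τ hτ hA]
    set m := J.card - frc v J (insert j0 τ) - 1 with hm
    set d := frc v J τ - frc v J (insert j0 τ) - 1 with hd
    have e1 : J.card - frc v J (insert j0 τ) = m + 1 := by omega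
    have e2 : d + (J.card - frc v J τ) = m := by omega
    rw [e1, ← e2, pow_succ, pow_add]
    linear_combination (-(w * ((u : R) - 1) ^ d * ((u : R) - 1) ^ (J.card - frc v J τ))) * huY
  have hh0 := hhom b0 hb0
  have hh1 := hhom b1 hb1
  set Cs : Finset (Fin r) → PowerSeries R := fun τ => PowerSeries.map (evR u) (cser v J τ)
    with hCs
  have hCs0 : ∀ τ, ¬ Ad τ → Cs τ = 0 := fun τ h => by
    simp only [hCs]
    rw [hAd0 τ h, map_zero]
  -- the images of the universal series
  have hPsi : ∀ κ, PowerSeries.C ((u : R) ^ J.card) * PowerSeries.map (evR u) (Psi v J κ) =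
      ∑ τ, PowerSeries.C (if bas v J τ = κ then
        (-1) ^ (τ.card + κ.card) * ((u : R) - 1) ^ (mx v J κ - (frc v J τ + τ.card)) *
          (u : R) ^ frc v J τ else 0) * Cs τ := by
    intro κ
    unfold Psi
    rw [map_sum, Finset.mul_sum]
    refine Finset.sum_congr rfl fun τ _ => ?_
    rw [map_mul, PowerSeries.map_C, ← mul_assoc, ← map_mul, evR_cf]
  have hOmg : PowerSeries.C ((u : R) ^ J.card) * PowerSeries.map (evR u) (Omg v J) =
      ∑ τ, PowerSeries.C ((u : R) ^ frc v J τ * ((u : R) - 1) ^ (J.card - frc v J τ)) *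
        Cs τ := by
    unfold Omg
    rw [map_sum, Finset.mul_sum]
    refine Finset.sum_congr rfl fun τ _ => ?_
    rw [map_mul, PowerSeries.map_C, ← mul_assoc, ← map_mul, map_pow, map_sub, map_one, evR_X]
    congr 2
    obtain ⟨d, hd⟩ : ∃ d, J.card = frc v J τ + d := ⟨J.card - frc v J τ, by
      have := frc_le v J τ
      omega⟩
    rw [hd, show frc v J τ + d - frc v J τ = d by omega, pow_add, mul_assoc, ← mul_pow, mul_sub,
      mul_one, Units.mul_inv]
  -- `B_κ`
  set B : Finset (Fin r) → PowerSeries R := fun κ =>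
    PowerSeries.C (b0 κ - c κ) * (1 - PowerSeries.C Y * PowerSeries.X) +
      PowerSeries.C (b1 κ - c κ) * (PowerSeries.C Y * PowerSeries.X) with hB
  have hgeo : (1 - PowerSeries.C Y * PowerSeries.X) * geoR u (-1) 1 = 1 := by
    have h1 := geoR_mul u (-1) 1 one_pos
    rw [zpow_neg_one] at h1
    have h2 : (1 : ℤ).toNat = 1 := rfl
    rw [h2, pow_one] at h1
    exact h1
  -- the total
  have htot : FR u v J b0 b1 * (1 - PowerSeries.C Y * PowerSeries.X) =
      PowerSeries.C ((u : R) ^ J.card) * (PowerSeries.C (w * Y) *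
        PowerSeries.map (evR u) (Omg v J) + ∑ κ, B κ * PowerSeries.map (evR u) (Psi v J κ)) := by
    rw [mul_add, Finset.mul_sum]
    have e1 : PowerSeries.C ((u : R) ^ J.card) * (PowerSeries.C (w * Y) *
        PowerSeries.map (evR u) (Omg v J)) = PowerSeries.C (w * Y) *
          ∑ τ, PowerSeries.C ((u : R) ^ frc v J τ * ((u : R) - 1) ^ (J.card - frc v J τ)) *
            Cs τ := by
      rw [← hOmg]
      ring
    have e2 : ∀ κ, PowerSeries.C ((u : R) ^ J.card) * (B κ *
        PowerSeries.map (evR u) (Psi v J κ)) = ∑ τ, B κ * (PowerSeries.C (if bas v J τ = κ then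
        (-1) ^ (τ.card + κ.card) * ((u : R) - 1) ^ (mx v J κ - (frc v J τ + τ.card)) *
          (u : R) ^ frc v J τ else 0) * Cs τ) := by
      intro κ
      rw [← Finset.mul_sum, ← hPsi κ]
      ring
    rw [e1, Finset.sum_congr rfl fun κ _ => e2 κ, Finset.sum_comm, Finset.mul_sum,
      ← Finset.sum_add_distrib]
    unfold FR
    rw [Finset.sum_mul]
    refine Finset.sum_congr rfl fun τ _ => ?_
    rw [Finset.sum_eq_single (bas v J τ)]
    · rw [if_pos rfl]
      change PowerSeries.C ((u : R) ^ frc v J τ) * (PowerSeries.C (b0 τ) * Cs τ +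
        PowerSeries.C (b1 τ) * (PowerSeries.C Y * PowerSeries.X * Cs τ * geoR u (-1) 1)) *
          (1 - PowerSeries.C Y * PowerSeries.X) = _
      by_cases hA : Ad τ
      · have h0 := hh0 τ hA
        have h1 := hh1 τ hA
        set s : R := (-1) ^ (τ.card + (bas v J τ).card) *
          ((u : R) - 1) ^ (mx v J (bas v J τ) - (frc v J τ + τ.card)) with hs
        have h0' : PowerSeries.C (b0 τ) = PowerSeries.C (c τ) +
            PowerSeries.C s * PowerSeries.C (b0 (bas v J τ) - c (bas v J τ)) := by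
          rw [← map_mul, ← h0, ← map_add]
          congr 1
          ring
        have h1' : PowerSeries.C (b1 τ) = PowerSeries.C (c τ) +
            PowerSeries.C s * PowerSeries.C (b1 (bas v J τ) - c (bas v J τ)) := by
          rw [← map_mul, ← h1, ← map_add]
          congr 1
          ring
        rw [h0', h1']
        have hcτ : PowerSeries.C (c τ) = PowerSeries.C (w * Y) *
            PowerSeries.C (((u : R) - 1) ^ (J.card - frc v J τ)) := by
          rw [← map_mul]
        rw [hcτ, map_mul PowerSeries.C s, map_mul PowerSeries.C ((u : R) ^ frc v J τ)]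
        simp only [hB]
        linear_combination (PowerSeries.C ((u : R) ^ frc v J τ) *
          (PowerSeries.C (w * Y) * PowerSeries.C (((u : R) - 1) ^ (J.card - frc v J τ)) +
            PowerSeries.C s * PowerSeries.C (b1 (bas v J τ) - c (bas v J τ))) *
            (PowerSeries.C Y * PowerSeries.X * Cs τ)) * hgeo
      · rw [hCs0 τ hA]
        ring
    · intro κ _ hκ
      rw [if_neg (Ne.symm hκ), map_zero, zero_mul, mul_zero]
    · intro h
      exact absurd (Finset.mem_univ _) h
  -- the component of `∅`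
  have hB0 : B ∅ = PowerSeries.C (w * Y) * (PowerSeries.X - 1) := by
    simp only [hB, hc, h00, h10]
    rw [frc_empty, Nat.sub_self, pow_zero, mul_one, zero_sub, map_neg, map_sub, map_mul]
    ring
  have htot2 : PowerSeries.C (w * Y) * PowerSeries.map (evR u) (Omg v J) +
      ∑ κ, B κ * PowerSeries.map (evR u) (Psi v J κ) =
      PowerSeries.C (w * Y) * PowerSeries.map (evR u) (Gd v J ∅) +
        ∑ κ ∈ Finset.univ.erase ∅, B κ * PowerSeries.map (evR u) (Gd v J κ) := by
    rw [← Finset.add_sum_erase _ _ (Finset.mem_univ (∅ : Finset (Fin r))), hB0, ← add_assoc]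
    congr 1
    · have e0 : PowerSeries.map (evR u) (Gd v J ∅) = (PowerSeries.X - 1) *
          PowerSeries.map (evR u) (Psi v J ∅) + PowerSeries.map (evR u) (Omg v J) := by
        unfold Gd
        rw [if_pos rfl, map_add, map_mul, map_sub, map_one, PowerSeries.map_X]
      rw [e0]
      ring
    · refine Finset.sum_congr rfl fun κ hκ => ?_
      unfold Gd
      rw [if_neg (Finset.ne_of_mem_erase hκ)]
  have hmem : FR u v J b0 b1 * (1 - PowerSeries.C Y * PowerSeries.X) ∈ ratR u S := by
    rw [htot, htot2]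
    have hBm : ∀ κ, B κ ∈ ratR u S := fun κ =>
      (ratR u S).add_mem ((ratR u S).mul_mem (CR_mem u S _) ((ratR u S).sub_mem
        (ratR u S).one_mem ((ratR u S).mul_mem (CR_mem u S _) (XR_mem u S))))
        ((ratR u S).mul_mem (CR_mem u S _) ((ratR u S).mul_mem (CR_mem u S _) (XR_mem u S)))
    have hGm : ∀ κ, PowerSeries.map (evR u) (Gd v J κ) ∈ ratR u S := fun κ =>
      ratR_mem u v l hl _ (hG κ)
    exact (ratR u S).mul_mem (CR_mem u S _) ((ratR u S).add_mem
      ((ratR u S).mul_mem (CR_mem u S _) (hGm ∅))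
      ((ratR u S).sum_mem fun κ _ => (ratR u S).mul_mem (hBm κ) (hGm κ)))
  exact hmem

end

section

open MvPolynomial
open Pool.Agent.TH216.MC
open Pool.Agent.W428.MOT Pool.Agent.W749.MT Pool.Agent.W425.MM.Mot
open Pool.Agent.W375.MG (Good GB0 GB1 constr_W constr_GB1 zetaG)
open Pool.Agent.TH216.MF (frc frc_le free_step cser cf Psi Omg Gd fac IsPol KRelJ RecJ formal ratR
  FR evR geoR_mul)
open Pool.Agent.W426.SM (gord ford IsRay face)
open Pool.Agent.W63.MTFin (mapMeas geo_sum L_mul ev)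

/-- (FOUR) the geometric factor of the strict transform -/
theorem four : Pool.Agent.Y229.MS.TaskFOUR := by
  intro n r m hr0 Bad hB
  classical
  have h1 : S_K0 := Pool.Agent.W417.MT.K0.main
  have h5 : S_CP1 := Pool.Agent.W346.MTCp1.main
  have hFree : S_Free := Pool.Agent.W417.MT.Free.main
  have hSub : S_Sub := Pool.Agent.W21.MTSub.main
  have hTay : S_Tay := Pool.Agent.W417.MT.Tay.main
  choose l hl hG using fun J : Finset (Fin n) => formal hr0 m J Bad (hB J)
  set S : Finset (ℤ × ℤ) := Finset.univ.biUnion fun J : Finset (Fin n) =>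
    (l J).toFinset.image fun a => (-((∑ i, a i : ℕ) : ℤ), (gord m a : ℤ)) with hS
  have hS2 : ∀ J, ∀ a ∈ l J, (-((∑ i, a i : ℕ) : ℤ), (gord m a : ℤ)) ∈ S :=
    fun J a ha => Finset.mem_biUnion.2 ⟨J, Finset.mem_univ _,
      Finset.mem_image.2 ⟨a, List.mem_toFinset.2 ha, rfl⟩⟩
  refine ⟨S, fun p hp => ?_, ?_⟩
  · obtain ⟨J, -, hp⟩ := Finset.mem_biUnion.1 hp
    obtain ⟨a, ha, rfl⟩ := Finset.mem_image.1 hp
    obtain ⟨ha1, ha2, ha3⟩ := hl J a (List.mem_toFinset.1 ha)
    exact ⟨a, ha1, ha2, ha3, rfl⟩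
  · intro K _ _ c hNon hc W E hW hE
    obtain ⟨M₀, hM₀⟩ := h1 K
    set M := mapMeas M₀ (algebraMap (K0 K) (MK K)) with hM
    set Y : MK K := (((Lu K)⁻¹ : (MK K)ˣ) : MK K) with hY
    have hL : M.L * Y = 1 := L_mul hM₀
    have hML : M.L = ((Lu K : (MK K)ˣ) : MK K) := by
      have h2 : ((Lu K : (MK K)ˣ) : MK K) * Y = 1 := Units.mul_inv _
      calc M.L = M.L * (((Lu K : (MK K)ˣ) : MK K) * Y) := by rw [h2, mul_one]
        _ = (M.L * Y) * ((Lu K : (MK K)ˣ) : MK K) := by ring
        _ = _ := by rw [hL, one_mul]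
    have hsum := sum hFree hSub hTay M 0 m c 1 hW hE hNon one_pos Y hL
    -- the series
    set C : Finset (Fin n) → Finset (Fin r) → PowerSeries (MK K) := fun J τ =>
      PowerSeries.map (evR (Lu K)) (cser m J τ) with hCdef
    have hCc : ∀ J τ N, PowerSeries.coeff N (C J τ) =
        Polynomial.eval₂ (Int.castRingHom (MK K)) Y (cp 0 m 1 J τ N N) := fun J τ N => by
      simp only [hCdef, cser]
      rw [PowerSeries.coeff_map, PowerSeries.coeff_mk]
      rfl
    set D : Finset (Fin n) → Finset (Fin r) → PowerSeries (MK K) := fun J τ =>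
      PowerSeries.mk fun N => ∑ l ∈ Finset.Icc 1 N,
        if 1 * l ≤ N then Y ^ l * PowerSeries.coeff (N - 1 * l) (C J τ) else 0
      with hDdef
    have hD : ∀ J τ, D J τ = PowerSeries.C Y * PowerSeries.X * C J τ * geoR (Lu K) (-1) 1 := by
      intro J τ
      have h6 := geo_sum Y (fun N => PowerSeries.coeff N (C J τ)) 1 one_pos
      have h7 := geoR_mul (Lu K) (-1) 1 one_pos
      rw [show (1 : ℤ).toNat = 1 from rfl, zpow_neg_one] at h7
      have h9 : PowerSeries.mk (fun N => PowerSeries.coeff N (C J τ)) = C J τ := by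
        ext N
        rw [PowerSeries.coeff_mk]
      rw [h9] at h6
      have h10 : D J τ * ((1 - PowerSeries.C Y * PowerSeries.X ^ 1) * geoR (Lu K) (-1) 1) =
          PowerSeries.C Y * PowerSeries.X ^ 1 * C J τ * geoR (Lu K) (-1) 1 := by
        rw [← h6, mul_assoc]
      rw [h7, mul_one, pow_one] at h10
      exact h10
    set b0 : Finset (Fin n) → Finset (Fin r) → MK K := fun J τ => M.χ _ (GB0 0 m c 1 W E J τ)
      with hb0
    set b1 : Finset (Fin n) → Finset (Fin r) → MK K := fun J τ => M.χ _ (GB1 0 m c 1 W E J τ)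
      with hb1
    set F : PowerSeries (MK K) := ∑ J : Finset (Fin n), FR (Lu K) m J (b0 J) (b1 J) with hF
    have hFmem : F * (1 - PowerSeries.C Y * PowerSeries.X) ∈ ratRing K S := by
      rw [hF, Finset.sum_mul]
      refine (ratRing K S).sum_mem fun J _ => ?_
      refine inRat_J1 (Lu K) m J (l J) (fun a ha => ⟨(hl J a ha).2.1, hS2 J a ha⟩) (hG J)
        (M.χ _ (GB1 0 m c 1 W E J ∅)) (fun _ => True) (fun _ _ _ _ => trivial)
        (fun _ h => absurd trivial h) (b0 J) (b1 J) (b0_empty M m c hE J) rfl ?_ ?_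
      · intro i hi j0 hj0 τ hτ _
        rw [← hML]
        exact b0_rel hFree hSub M m c hc hW hE J i hi j0 hj0 τ hτ
      · intro i hi j0 hj0 τ hτ _
        rw [← hML]
        exact b1_rel hFree hSub M m c hc hW hE J i hi j0 hj0 τ hτ
    have hz : zetaG (sp 0 m c 1) W E =
        F - PowerSeries.C (PowerSeries.coeff 0 F) + PowerSeries.C (PowerSeries.coeff 0
          (zetaG (sp 0 m c 1) W E)) := by
      ext N
      by_cases hN : N = 0
      · subst hN
        rw [map_add, map_sub, PowerSeries.coeff_C, if_pos rfl, PowerSeries.coeff_C, if_pos rfl,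
          sub_self, zero_add]
      · rw [map_add, map_sub, PowerSeries.coeff_C, if_neg hN, PowerSeries.coeff_C, if_neg hN,
          sub_zero, add_zero, zetaG, PowerSeries.coeff_mk]
        have h6 := hsum N (by omega)
        have h7 : algebraMap (K0 K) (MK K) (cls (Fin n × Fin (N + 1))
            (Pool.Agent.W375.MG.JetG (sp 0 m c 1) W E N)) *
            (((Lu K) ^ (-((n * N : ℕ) : ℤ)) : (MK K)ˣ) : MK K) =
            M.χ _ (Pool.Agent.W375.MG.JetG (sp 0 m c 1) W E N) * Y ^ (n * N) := by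
          rw [zpow_neg, zpow_natCast, ← inv_pow, Units.val_pow_eq_pow_val, ← hM₀]
          rfl
        rw [h7, h6, hF, map_sum]
        refine Finset.sum_congr rfl fun J _ => ?_
        unfold FR
        rw [map_sum]
        refine Finset.sum_congr rfl fun τ _ => ?_
        change _ = PowerSeries.coeff N (PowerSeries.C (((Lu K : (MK K)ˣ) : MK K) ^ frc m J τ) *
          (PowerSeries.C (b0 J τ) * C J τ + PowerSeries.C (b1 J τ) *
            (PowerSeries.C Y * PowerSeries.X * C J τ * geoR (Lu K) (-1) 1)))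
        rw [← hD, ← hML, PowerSeries.coeff_C_mul, map_add, PowerSeries.coeff_C_mul,
          PowerSeries.coeff_C_mul, hCc, hDdef, PowerSeries.coeff_mk, Finset.mul_sum]
        congr 2
        refine Finset.sum_congr rfl fun i _ => ?_
        split_ifs with hi
        · rw [hCc, h5 0 m 1 J τ hr0 one_pos N (N - 1 * i) (Nat.sub_le _ _), mul_assoc]
        · rw [mul_zero]
    have hYX : (1 - PowerSeries.C Y * PowerSeries.X) ∈ ratRing K S :=
      (ratRing K S).sub_mem (ratRing K S).one_mem ((ratRing K S).mul_mem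
        (Pool.Agent.W63.MTFin.C_mem _ _) (Pool.Agent.W63.MTFin.X_mem _))
    have hfin : (1 - PowerSeries.C Y * PowerSeries.X) * zetaG (sp 0 m c 1) W E =
        F * (1 - PowerSeries.C Y * PowerSeries.X) -
          PowerSeries.C (PowerSeries.coeff 0 F) * (1 - PowerSeries.C Y * PowerSeries.X) +
          PowerSeries.C (PowerSeries.coeff 0 (zetaG (sp 0 m c 1) W E)) *
            (1 - PowerSeries.C Y * PowerSeries.X) := by
      conv_lhs => rw [hz]
      ring
    rw [hfin]
    exact (ratRing K S).add_mem ((ratRing K S).sub_mem hFmem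
      ((ratRing K S).mul_mem (Pool.Agent.W63.MTFin.C_mem _ _) hYX))
      ((ratRing K S).mul_mem (Pool.Agent.W63.MTFin.C_mem _ _) hYX)

end

end Pool.Agent.Y824.MS
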